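import Pool.Agent.H110R3.Urn.Stmts

/-!
# Urn project (helper110): TASK E2b, the combinatorial lemma on gaps
-/

set_option autoImplicit false

namespace Pool.Agent.H927R2.UrnE2b

open Pool.Agent.H110R3.Urn

lemma gap {m : ℕ} (A : Finset (Fin m)) (ν : Fin m → ℝ) {K : ℝ} (hK : 0 < K) {i j : Fin m} (hi : i ∈ A) (hj : j ∈ A)
    (h : (m : ℝ) * K < ν j - ν i) :
    ∃ t ∈ A, ν i ≤ ν t ∧ ν t + K ≤ ν j ∧ ∀ s ∈ A, ν s ≤ ν t ∨ ν t + K ≤ ν s := by
  classical
  by_contra hcon
  push Not at hcon
  have key : ∀ n : ℕ, ∀ t ∈ A, ν i ≤ ν t →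
      (A.filter (fun s => ν t < ν s ∧ ν s ≤ ν j)).card ≤ n → ν j - ν t ≤ n * K := by
    intro n
    induction n with
    | zero =>
      intro t ht hit hc
      by_contra hlt
      push Not at hlt
      rw [Nat.cast_zero, zero_mul] at hlt
      have hm : j ∈ A.filter (fun s => ν t < ν s ∧ ν s ≤ ν j) := by
        rw [Finset.mem_filter]
        exact ⟨hj, by linarith, le_rfl⟩
      have := Finset.card_pos.2 ⟨j, hm⟩
      omega
    | succ n ih =>
      intro t ht hit hc
      by_cases h1 : ν t + K ≤ ν j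
      · obtain ⟨s, hs, h2, h3⟩ := hcon t ht hit h1
        have hsub : A.filter (fun x => ν s < ν x ∧ ν x ≤ ν j) ⊂ A.filter (fun x => ν t < ν x ∧ ν x ≤ ν j) := by
          rw [Finset.ssubset_iff_of_subset]
          · refine ⟨s, ?_, ?_⟩
            · rw [Finset.mem_filter]
              exact ⟨hs, h2, by linarith⟩
            · rw [Finset.mem_filter]
              rintro ⟨_, h4, _⟩
              exact lt_irrefl _ h4
          · intro x hx
            rw [Finset.mem_filter] at hx ⊢
            exact ⟨hx.1, by linarith [hx.2.1], hx.2.2⟩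
        have h4 := Finset.card_lt_card hsub
        have h5 := ih s hs (by linarith) (by omega)
        push_cast
        linarith
      · push Not at h1
        push_cast
        have : 0 ≤ (n:ℝ) * K := by positivity
        linarith
  have hc : (A.filter (fun s => ν i < ν s ∧ ν s ≤ ν j)).card ≤ m :=
    (Finset.card_le_univ _).trans (by simp)
  have := key m i hi le_rfl hc
  linarith

theorem taskE2b : TaskE2b := by
  classical
  intro m A ν K M hK i hi j hj h1 h2
  have hmK : 0 ≤ (m : ℝ) * K := by positivity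
  have hM : 0 < M := by linarith
  set R : Fin m → Fin m → Prop := fun a b => a ∈ A ∧ b ∈ A ∧ |ν a - ν b| < M with hR
  set C : Finset (Fin m) := A.filter (fun a => Relation.ReflTransGen R i a) with hC
  have hCA : C ⊆ A := Finset.filter_subset _ _
  have hiC : i ∈ C := Finset.mem_filter.2 ⟨hi, Relation.ReflTransGen.refl⟩
  have hjC : j ∈ C := by
    refine Finset.mem_filter.2 ⟨hj, Relation.ReflTransGen.single ⟨hi, hj, ?_⟩⟩
    rw [abs_sub_comm, abs_of_nonneg (by linarith)]
    exact h2
  have hsep : ∀ a ∈ C, ∀ k ∈ A, k ∉ C → M ≤ |ν a - ν k| := by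
    intro a ha k hk hkC
    by_contra hlt
    push Not at hlt
    apply hkC
    rw [hC, Finset.mem_filter] at ha
    exact Finset.mem_filter.2 ⟨hk, ha.2.tail ⟨ha.1, hk, hlt⟩⟩
  -- diameter
  have hdiam1 : ∀ a ∈ C, ∀ b ∈ C, ν b - ν a ≤ m * M := by
    intro a ha b hb
    by_contra hlt
    push Not at hlt
    obtain ⟨t, _, h3, h4, h5⟩ := gap A ν hM (hCA ha) (hCA hb) hlt
    rw [hC, Finset.mem_filter] at ha hb
    have hlow : ∀ x, ν i ≤ ν t → Relation.ReflTransGen R i x → ν x ≤ ν t := by
      intro x hit hx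
      induction hx with
      | refl => exact hit
      | @tail y z _ hyz ih =>
        obtain ⟨_, hz, hd⟩ := hyz
        rcases h5 z hz with h6 | h6
        · exact h6
        · exfalso
          rw [abs_lt] at hd
          linarith [hd.1]
    have hhigh : ∀ x, ν t + M ≤ ν i → Relation.ReflTransGen R i x → ν t + M ≤ ν x := by
      intro x hit hx
      induction hx with
      | refl => exact hit
      | @tail y z _ hyz ih =>
        obtain ⟨_, hz, hd⟩ := hyz
        rcases h5 z hz with h6 | h6
        · exfalso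
          rw [abs_lt] at hd
          linarith [hd.2]
        · exact h6
    rcases h5 i hi with h6 | h6
    · have := hlow b h6 hb.2
      linarith
    · have := hhigh a h6 ha.2
      linarith
  have hdiam : ∀ a ∈ C, ∀ b ∈ C, |ν a - ν b| ≤ m * M := by
    intro a ha b hb
    rw [abs_le]
    constructor
    · linarith [hdiam1 a ha b hb]
    · linarith [hdiam1 b hb a ha]
  obtain ⟨t, htC, h3, h4, h5⟩ := gap C ν hK hiC hjC h1
  have hun : C.filter (fun s => ν t + K ≤ ν s) ∪ C.filter (fun s => ν s ≤ ν t) = C := by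
    ext s
    simp only [Finset.mem_union, Finset.mem_filter]
    constructor
    · rintro (h | h)
      · exact h.1
      · exact h.1
    · intro hs
      rcases h5 s hs with h6 | h6
      · exact Or.inr ⟨hs, h6⟩
      · exact Or.inl ⟨hs, h6⟩
  refine ⟨C.filter (fun s => ν t + K ≤ ν s), C.filter (fun s => ν s ≤ ν t),
    (Finset.filter_subset _ _).trans hCA, (Finset.filter_subset _ _).trans hCA,
    ⟨j, Finset.mem_filter.2 ⟨hjC, h4⟩⟩, ⟨t, Finset.mem_filter.2 ⟨htC, le_rfl⟩⟩, ?_, ?_, ?_⟩
  · intro a ha b hb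
    have h6 := (Finset.mem_filter.1 ha).2
    have h7 := (Finset.mem_filter.1 hb).2
    linarith
  · rw [hun]
    exact hsep
  · rw [hun]
    exact hdiam

end Pool.Agent.H927R2.UrnE2b
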