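import Pool.Agent.H394R3.ET.Stmts
import Pool.Agent.H96R3.BC.Basic
import Pool.Agent.H96R3.BC.FixDefs

/-!
# PROJECT ET, TASK DECAY: the response decays like the forcing
-/

set_option autoImplicit false

open Finset

namespace Pool.Agent.H927R2.ETDecay

open Pool.Agent.H96R3.BC Pool.Agent.H394R3.ET

lemma cell_exists {Q j₀ n : ℕ} (hQ : 1 ≤ Q) (hn : j₀ ^ (2 * Q) < n) : ∃ j, j₀ ≤ j ∧ n ∈ CC Q j := by
  classical
  have hex : ∃ k, n ≤ k ^ (2 * Q) := ⟨n, Nat.le_self_pow (by omega) n⟩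
  set k := Nat.find hex with hk
  have h1 : n ≤ k ^ (2 * Q) := Nat.find_spec hex
  have hk0 : j₀ < k := by
    by_contra h
    push Not at h
    have := Nat.pow_le_pow_left h (2 * Q)
    omega
  refine ⟨k - 1, by omega, ?_⟩
  rw [mem_CC]
  have h2 : ¬ n ≤ (k - 1) ^ (2 * Q) := Nat.find_min hex (by omega)
  have h3 : k - 1 + 1 = k := by omega
  rw [h3]
  exact ⟨by omega, h1⟩

lemma succ_pow_le {m j : ℕ} (hj : 2 * m ≤ j) : ((j:ℝ) + 1) ^ m ≤ 2 * (j:ℝ) ^ m := by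
  have hj1 : (0:ℝ) < j + 1 := by positivity
  have hle : 1 / ((j:ℝ) + 1) ≤ 1 := by
    rw [div_le_one hj1]
    have : (0:ℝ) ≤ j := Nat.cast_nonneg _
    linarith
  have h := one_add_mul_le_pow (a := -(1 / ((j:ℝ) + 1))) (by linarith) m
  have e : (1 + -(1 / ((j:ℝ) + 1))) = j / (j + 1) := by field_simp; ring
  rw [e, div_pow, le_div_iff₀ (by positivity)] at h
  have h2 : (1:ℝ) / 2 ≤ 1 + (m : ℝ) * -(1 / ((j:ℝ) + 1)) := by
    have h3 : (m : ℝ) * (1 / ((j:ℝ) + 1)) ≤ 1 / 2 := by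
      rw [mul_one_div, div_le_iff₀ hj1]
      have : (2 * m : ℝ) ≤ j := by exact_mod_cast hj
      linarith
    linarith
  have h4 := pow_pos hj1 m
  nlinarith

lemma card_ge {Q j : ℕ} (hQ : 1 ≤ Q) : (j:ℝ) ^ (2 * Q) ≤ (CC Q j).card * (j:ℝ) := by
  have h1 : (CC Q j).card = (j + 1) ^ (2 * Q) - j ^ (2 * Q) := by
    unfold CC; exact Nat.card_Ioc _ _
  have h2 : j ^ (2 * Q) ≤ (j + 1) ^ (2 * Q) := Nat.pow_le_pow_left (by omega) _
  rw [h1, Nat.cast_sub h2]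
  push_cast
  obtain ⟨m, hm⟩ : ∃ m, 2 * Q = m + 1 := ⟨2 * Q - 1, by omega⟩
  rw [hm]
  have h3 : (j:ℝ) ^ m ≤ ((j:ℝ) + 1) ^ m := pow_le_pow_left₀ (by positivity) (by linarith) m
  have h4 : (0:ℝ) ≤ ((j:ℝ) + 1) * j := by positivity
  have h5 := mul_le_mul_of_nonneg_right h3 h4
  have e1 : ((j:ℝ) + 1) ^ (m + 1) * j = ((j:ℝ) + 1) ^ m * (((j:ℝ) + 1) * j) := by ring
  have e2 : (j:ℝ) ^ (m + 1) * j + (j:ℝ) ^ (m + 1) = (j:ℝ) ^ m * (((j:ℝ) + 1) * j) := by ring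
  linarith

lemma KC_sub (Q j : ℕ) : KC Q j ⊆ CC Q j := filter_subset _ _

lemma fac_le {Q j n q : ℕ} (hsucc : (j + 1) ^ (2 * Q) ≤ 2 * j ^ (2 * Q)) (hn : n ∈ KC Q j) (hq : q ∈ n.primeFactors) :
    q ≤ j ^ (2 * Q) := by
  unfold KC at hn
  rw [mem_filter, mem_CC] at hn
  obtain ⟨⟨h1, h2⟩, h3⟩ := hn
  rw [Nat.mem_primeFactors] at hq
  obtain ⟨hqp, ⟨m, hm⟩, hn0⟩ := hq
  have hm0 : m ≠ 0 := by
    rintro rfl
    omega
  have hm1 : m ≠ 1 := by
    rintro rfl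
    rw [mul_one] at hm
    rw [hm] at h3
    exact h3 hqp
  have hm2 : 2 ≤ m := by omega
  have : q * 2 ≤ q * m := Nat.mul_le_mul_left _ hm2
  omega

lemma comp_sum {Q j₀ j : ℕ} {s' : ℝ} {ρ : ℕ → ℝ} {y : ℕ → ℝ} (hj1 : 1 ≤ j)
    (hsucc : (j + 1) ^ (2 * Q) ≤ 2 * j ^ (2 * Q))
    (hM : Mass Q j₀ s') (hj : j₀ ≤ j) (hρ : Antitone ρ) (hρ0 : ∀ n, 0 ≤ ρ n)
    (hy : ∀ q, q ≤ j ^ (2 * Q) → |y q| ≤ HH ρ q / (Real.log q) ^ 2) (hlow : ∀ q, q ≤ j₀ ^ (2 * Q) → y q = 0) :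
    ∑ n ∈ KC Q j, |cf y n| ≤
      ((j ^ (2 * Q) : ℕ) : ℝ) ^ (-ρ (j ^ (2 * Q))) * (s' * (CC Q j).card / (Real.log j) ^ 3) := by
  classical
  set M := j ^ (2 * Q) with hMdef
  have hM1 : 1 ≤ M := Nat.one_le_pow _ _ hj1
  have hM1' : (0:ℝ) < M := by exact_mod_cast hM1
  set T := (KC Q j).filter (fun n => cf y n ≠ 0) with hT
  have h1 : ∑ n ∈ KC Q j, |cf y n| = ∑ n ∈ T, |cf y n| := by
    rw [hT, sum_filter]
    refine sum_congr rfl fun n _ => ?_
    by_cases h : cf y n = 0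
    · simp [h]
    · simp [h]
  rw [h1]
  have hprop : ∀ n ∈ T, Squarefree n ∧ ∀ p ∈ n.primeFactors, j₀ ^ (2 * Q) < p := by
    intro n hn
    rw [hT, mem_filter] at hn
    have h2 := hn.2
    by_cases hsq : Squarefree n
    · refine ⟨hsq, fun p hp => ?_⟩
      by_contra hc
      push Not at hc
      apply h2
      unfold cf
      rw [if_pos hsq]
      exact prod_eq_zero hp (hlow p hc)
    · exfalso
      apply h2
      unfold cf
      rw [if_neg hsq]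
  have hmass := hM j hj T (filter_subset _ _) hprop
  calc ∑ n ∈ T, |cf y n| ≤ ∑ n ∈ T, (M : ℝ) ^ (-ρ M) * ∏ p ∈ n.primeFactors, (2 / (Real.log p) ^ 2) := by
        refine sum_le_sum fun n hn => ?_
        have hsq := (hprop n hn).1
        have hnK : n ∈ KC Q j := (mem_filter.1 hn).1
        have hnM : M < n := (mem_CC.1 (KC_sub _ _ hnK)).1
        have e1 : |cf y n| = ∏ q ∈ n.primeFactors, |y q| := by
          unfold cf
          rw [if_pos hsq, abs_prod]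
        rw [e1]
        calc ∏ q ∈ n.primeFactors, |y q| ≤ ∏ q ∈ n.primeFactors, ((q:ℝ) ^ (-ρ M) * (2 / (Real.log q) ^ 2)) := by
              refine prod_le_prod (fun q _ => abs_nonneg _) fun q hq => ?_
              have hqM := fac_le hsucc hnK hq
              have hqp := Nat.prime_of_mem_primeFactors hq
              have hq1 : (1:ℝ) ≤ q := by exact_mod_cast hqp.one_lt.le
              have hb := hy q hqM
              have hH : HH ρ q ≤ (q:ℝ) ^ (-ρ M) := by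
                unfold HH
                apply Real.rpow_le_rpow_of_exponent_le hq1
                have := hρ hqM
                linarith
              have hH0 : 0 ≤ (q:ℝ) ^ (-ρ M) := by positivity
              have hl : 0 ≤ 1 / (Real.log q) ^ 2 := by positivity
              calc |y q| ≤ HH ρ q / (Real.log q) ^ 2 := hb
                _ = HH ρ q * (1 / (Real.log q) ^ 2) := by ring
                _ ≤ (q:ℝ) ^ (-ρ M) * (1 / (Real.log q) ^ 2) := mul_le_mul_of_nonneg_right hH hl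
                _ ≤ (q:ℝ) ^ (-ρ M) * (2 / (Real.log q) ^ 2) := by
                    apply mul_le_mul_of_nonneg_left _ hH0
                    have : 2 / (Real.log q) ^ 2 = 2 * (1 / (Real.log q) ^ 2) := by ring
                    linarith
          _ = (∏ q ∈ n.primeFactors, (q:ℝ) ^ (-ρ M)) * ∏ q ∈ n.primeFactors, (2 / (Real.log q) ^ 2) := prod_mul_distrib
          _ = (n:ℝ) ^ (-ρ M) * ∏ q ∈ n.primeFactors, (2 / (Real.log q) ^ 2) := by
              congr 1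
              rw [Real.finsetProd_rpow _ _ (fun i _ => Nat.cast_nonneg i)]
              congr 1
              rw [← Nat.cast_prod, Nat.prod_primeFactors_of_squarefree hsq]
          _ ≤ (M : ℝ) ^ (-ρ M) * ∏ p ∈ n.primeFactors, (2 / (Real.log p) ^ 2) := by
              apply mul_le_mul_of_nonneg_right
              · apply Real.rpow_le_rpow_of_nonpos hM1'
                · exact_mod_cast hnM.le
                · have := hρ0 M
                  linarith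
              · exact prod_nonneg fun _ _ => by positivity
    _ = (M : ℝ) ^ (-ρ M) * ∑ n ∈ T, ∏ p ∈ n.primeFactors, (2 / (Real.log p) ^ 2) := by rw [mul_sum]
    _ ≤ _ := mul_le_mul_of_nonneg_left hmass (by positivity)

lemma cell_le' {Q j₀ : ℕ} (hQ : 1 ≤ Q) {c : ℕ → ℝ} {f : ℝ → ℝ} {j : ℕ} {K : ℝ → ℝ} {G : Finset ℕ} (hG : G ⊆ CC Q j)
    {B m F : ℝ} (hB0 : 0 ≤ B) (hF0 : 0 ≤ F)
    (hB : ∀ u, UU j₀ j ≤ u → u ≤ UU j₀ (j + 1) → |K u| ≤ B)
    (hc : ∑ n ∈ G, |c n| ≤ m)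
    (hf : ∀ u, UU j₀ j ≤ u → u ≤ UU j₀ (j + 1) → |f u| ≤ F) :
    |(∫ u in (UU j₀ j)..(UU j₀ (j + 1)), f u * K u) - ∑ n ∈ G, c n * (vv Q j₀ n) ^ 2 * K (vv Q j₀ n)| ≤
    B * (UU j₀ (j + 1) ^ 2 * m + (UU j₀ (j + 1) - UU j₀ j) * F) := by
  have hU : UU j₀ j ≤ UU j₀ (j + 1) := UU_mono (show j ≤ j + 1 by omega)
  have h1 : |∑ n ∈ G, c n * (vv Q j₀ n) ^ 2 * K (vv Q j₀ n)| ≤ B * (UU j₀ (j + 1) ^ 2 * m) := by
    calc |∑ n ∈ G, c n * (vv Q j₀ n) ^ 2 * K (vv Q j₀ n)|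
        ≤ ∑ n ∈ G, |c n * (vv Q j₀ n) ^ 2 * K (vv Q j₀ n)| := Finset.abs_sum_le_sum_abs _ _
      _ ≤ ∑ n ∈ G, |c n| * (UU j₀ (j + 1) ^ 2 * B) := by
          refine Finset.sum_le_sum fun n hn => ?_
          have hv := vv_mem (j₀ := j₀) hQ (hG hn)
          rw [abs_mul, abs_mul, abs_of_nonneg (sq_nonneg (vv Q j₀ n)), mul_assoc]
          apply mul_le_mul_of_nonneg_left _ (abs_nonneg _)
          apply mul_le_mul _ (hB _ hv.1 hv.2) (abs_nonneg _) (sq_nonneg _)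
          exact pow_le_pow_left₀ (vv_nonneg _ _ _) hv.2 2
      _ = B * (UU j₀ (j + 1) ^ 2 * ∑ n ∈ G, |c n|) := by rw [← Finset.sum_mul]; ring
      _ ≤ _ := by
          apply mul_le_mul_of_nonneg_left _ hB0
          exact mul_le_mul_of_nonneg_left hc (sq_nonneg _)
  have h2 : |∫ u in (UU j₀ j)..(UU j₀ (j + 1)), f u * K u| ≤ B * ((UU j₀ (j + 1) - UU j₀ j) * F) := by
    have := intervalIntegral.norm_integral_le_of_norm_le_const (a := UU j₀ j) (b := UU j₀ (j + 1)) (C := F * B)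
      (f := fun u => f u * K u) (by
        intro u hu
        rw [Set.uIoc_of_le hU] at hu
        rw [Real.norm_eq_abs, abs_mul]
        exact mul_le_mul (hf u hu.1.le hu.2) (hB u hu.1.le hu.2) (abs_nonneg _) hF0)
    rw [Real.norm_eq_abs, abs_of_nonneg (sub_nonneg.2 hU)] at this
    refine this.trans (le_of_eq ?_)
    ring
  calc _ ≤ |∫ u in (UU j₀ j)..(UU j₀ (j + 1)), f u * K u| +
        |∑ n ∈ G, c n * (vv Q j₀ n) ^ 2 * K (vv Q j₀ n)| := abs_sub _ _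
    _ ≤ _ := by linarith

/-- lower bound for `HH` by the value at the beginning of the cell -/
lemma HH_ge {ρ : ℕ → ℝ} {M p : ℕ} (hM : 1 ≤ M) (hp : M ≤ p) (hp2 : p ≤ 2 * M) (hρ : Antitone ρ)
    (hρ8 : ∀ n, 0 ≤ ρ n ∧ ρ n ≤ 1 / 8) : (M:ℝ) ^ (-ρ M) ≤ 2 * HH ρ p := by
  have hM' : (0:ℝ) < M := by exact_mod_cast hM
  have hp' : (1:ℝ) ≤ p := by exact_mod_cast hM.trans hp
  have h1 : (p:ℝ) ^ (-ρ M) ≤ HH ρ p := by
    unfold HH
    apply Real.rpow_le_rpow_of_exponent_le hp'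
    have := hρ hp
    linarith
  have h2 : (2 * (M:ℝ)) ^ (-ρ M) ≤ (p:ℝ) ^ (-ρ M) := by
    apply Real.rpow_le_rpow_of_nonpos (by linarith)
    · exact_mod_cast hp2
    · have := (hρ8 M).1
      linarith
  have h3 : (2:ℝ) ^ (-1:ℝ) ≤ (2:ℝ) ^ (-ρ M) := by
    apply Real.rpow_le_rpow_of_exponent_le (by norm_num)
    have := (hρ8 M).2
    linarith
  rw [Real.rpow_neg_one] at h3
  rw [Real.mul_rpow (by norm_num) hM'.le] at h2
  have h4 : 0 ≤ (M:ℝ) ^ (-ρ M) := by positivity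
  have h5 := mul_le_mul_of_nonneg_right h3 h4
  linarith

/-- crude lower bound for `HH` -/
lemma HH_ge2 {ρ : ℕ → ℝ} {p : ℕ} {a : ℝ} (hp1 : 1 ≤ p) (ha : 0 < a) (hp2 : (p:ℝ) ≤ 2 * a ^ 8)
    (hρ8 : ∀ n, 0 ≤ ρ n ∧ ρ n ≤ 1 / 8) : 1 / (2 * a) ≤ HH ρ p := by
  have hp' : (1:ℝ) ≤ p := by exact_mod_cast hp1
  have h1 : (p:ℝ) ^ (-(1/8) : ℝ) ≤ HH ρ p := by
    unfold HH
    apply Real.rpow_le_rpow_of_exponent_le hp'
    have := (hρ8 p).2
    linarith
  have h2 : ((2 * a) ^ 8) ^ (-(1/8) : ℝ) ≤ (p:ℝ) ^ (-(1/8) : ℝ) := by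
    apply Real.rpow_le_rpow_of_nonpos (by linarith)
    · have h3 : (2 * a) ^ 8 = 256 * a ^ 8 := by ring
      have h4 : 0 < a ^ 8 := by positivity
      rw [h3]
      linarith
    · norm_num
  have h3 : ((2 * a) ^ 8) ^ (-(1/8) : ℝ) = 1 / (2 * a) := by
    rw [← Real.rpow_natCast, ← Real.rpow_mul (by positivity)]
    norm_num
    rw [Real.rpow_neg_one, mul_inv]
    ring
  linarith

theorem taskDecay : TaskDecay := by
  refine ⟨20, fun Q hQ C hC => ?_⟩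
  have hQ0 : (0:ℝ) < Q := by
    have : 0 < Q := by omega
    exact_mod_cast this
  refine ⟨1 / (144 * C * (Q:ℝ) ^ 2), by positivity, ?_⟩
  obtain ⟨J₁, hJ₁⟩ := exists_nat_ge (576 * C * (Q:ℝ) ^ 2)
  refine ⟨max (max 3 (4 * Q)) J₁, fun j₀ hj₀ a0 w hw hM ρ hρ hρ8 s x f hs hx hsb => ?_⟩
  have hj3 : 3 ≤ j₀ := (le_max_left _ _).trans ((le_max_left _ _).trans hj₀)
  have hj4 : 4 * Q ≤ j₀ := (le_max_right _ _).trans ((le_max_left _ _).trans hj₀)
  have hjC : 576 * C * (Q:ℝ) ^ 2 ≤ j₀ := hJ₁.trans (by exact_mod_cast (le_max_right _ _).trans hj₀)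
  intro n
  induction n using Nat.strong_induction_on with
  | _ p ih =>
  by_cases hxp : x p = 0
  · rw [hxp, abs_zero]
    have : 0 ≤ HH ρ p := Real.rpow_nonneg (Nat.cast_nonneg _) _
    positivity
  obtain ⟨hp, hpl⟩ := hx.xsupp p hxp
  obtain ⟨j, hj, hpj⟩ := cell_exists (by omega) hpl
  have hj1 : 1 ≤ j := by omega
  have hjp : (0:ℝ) < j := by exact_mod_cast hj1
  have hj3' : (3:ℝ) ≤ j := by exact_mod_cast hj3.trans hj
  have hj0p : (0:ℝ) < j₀ := by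
    have : 0 < j₀ := by omega
    exact_mod_cast this
  have hj0le : (j₀:ℝ) ≤ j := by exact_mod_cast hj
  have hsuccR : ((j:ℝ) + 1) ^ (2 * Q) ≤ 2 * (j:ℝ) ^ (2 * Q) := succ_pow_le (by omega)
  have hsucc : (j + 1) ^ (2 * Q) ≤ 2 * j ^ (2 * Q) := by exact_mod_cast hsuccR
  have hpc := mem_CC.1 hpj
  set M := j ^ (2 * Q) with hMdef
  have hM1 : 1 ≤ M := Nat.one_le_pow _ _ hj1
  set N : ℝ := ((CC Q j).card : ℝ) with hN
  set L : ℝ := Real.log j with hL
  have hL1 : 1 ≤ L := by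
    rw [hL, Real.le_log_iff_exp_le hjp]
    have := Real.exp_one_lt_d9
    linarith
  have hLj : L ≤ j := by
    have := Real.log_le_sub_one_of_pos hjp
    linarith
  have hcard : (j:ℝ) ^ (2 * Q) ≤ N * j := card_ge (by omega)
  have hNpos : 0 < N := by
    have h1 : (0:ℝ) < (j:ℝ) ^ (2 * Q) := by positivity
    by_contra h
    push Not at h
    have := mul_nonpos_of_nonpos_of_nonneg h hjp.le
    linarith
  -- logarithm
  have hp1 : (1:ℝ) < p := by exact_mod_cast hp.one_lt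
  have hlogp0 : 0 < Real.log p := Real.log_pos hp1
  have hlogp : Real.log p ≤ 3 * Q * L := by
    have h1 : (p:ℝ) ≤ ((j:ℝ) + 1) ^ (2 * Q) := by exact_mod_cast hpc.2
    have h2 : Real.log p ≤ Real.log (((j:ℝ) + 1) ^ (2 * Q)) := Real.log_le_log (by linarith) h1
    rw [Real.log_pow] at h2
    have h3 : 2 * Real.log ((j:ℝ) + 1) ≤ 3 * L := by
      have h4 : Real.log (((j:ℝ) + 1) ^ 2) ≤ Real.log ((j:ℝ) ^ 3) := by
        apply Real.log_le_log (by positivity)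
        nlinarith
      rw [Real.log_pow, Real.log_pow] at h4
      push_cast at h4
      linarith
    push_cast at h2
    nlinarith
  set P : ℝ := Real.log p with hP
  -- coefficients
  have hcomp := comp_sum (Q := Q) (j₀ := j₀) (j := j) (ρ := ρ) (y := fun q => s q + x q) hj1 hsucc hM hj hρ
    (fun n => (hρ8 n).1)
    (fun q hq => by
      have h1 := hsb q
      have h2 := ih q (by omega)
      have h3 := abs_add_le (s q) (x q)
      have e : HH ρ q / (Real.log q) ^ 2 = 1 / 2 * HH ρ q / (Real.log q) ^ 2 + 1 / 2 * HH ρ q / (Real.log q) ^ 2 := by ring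
      show |s q + x q| ≤ _
      linarith)
    (fun q hq => hx.sol.low q hq)
  set U := UU j₀ j with hU
  set V := UU j₀ (j + 1) with hV
  have hU1 : 1 ≤ U := one_le_UU (by omega) hj
  have hUV : U ≤ V := UU_mono (by omega)
  have hV1 : 1 ≤ V := hU1.trans hUV
  have hV2 : V ^ 2 ≤ 2 * U ^ 2 := UU_succ_sq_le hj1
  have hU2 : U ^ 2 = (j : ℝ) / j₀ := UU_sq _ _
  have hV2' : V ^ 2 = ((j:ℝ) + 1) / j₀ := by
    rw [hV, UU_sq]; push_cast; rfl
  have hVU : V - U ≤ 1 := by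
    have h1 : (V - U) * (V + U) ≤ 1 := by
      have h2 : (V - U) * (V + U) = V ^ 2 - U ^ 2 := by ring
      rw [h2, hU2, hV2', ← sub_div, div_le_one hj0p]
      have h3 : (3:ℝ) ≤ j₀ := by exact_mod_cast hj3
      linarith
    nlinarith
  set H : ℝ := ((M:ℕ):ℝ) ^ (-ρ M) with hH
  have hH0 : 0 ≤ H := by positivity
  have hHH := HH_ge hM1 hpc.1.le (hpc.2.trans hsucc) hρ hρ8
  have hHp0 : 0 ≤ HH ρ p := Real.rpow_nonneg (Nat.cast_nonneg _) _
  set F : ℝ := (j₀:ℝ) ^ Q * V ^ (3 * Q + 2) with hF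
  have hcell := cell_le' (Q := Q) (j₀ := j₀) (j := j) (c := cf (fun q => s q + x q)) (f := f) (K := w p) (by omega)
    (KC_sub Q j) (B := C * L / N) (m := H * (1 / (144 * C * (Q:ℝ) ^ 2) * N / L ^ 3)) (F := F)
    (by positivity) (by positivity)
    (fun u h1 h2 => hw.bound j hj p hpj u h1 h2) hcomp
    (fun u h1 h2 => by
      have hu1 : 1 ≤ u := hU1.trans h1
      have h3 := hx.fbd u (by linarith)
      have h4 : NN Q u = u ^ (3 * Q + 2) := by
        unfold NN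
        split_ifs with h
        · have : u = 1 := le_antisymm h hu1
          rw [this, one_pow, one_pow]
        · rfl
      rw [h4] at h3
      refine h3.trans ?_
      rw [hF]
      apply mul_le_mul_of_nonneg_left _ (by positivity)
      exact pow_le_pow_left₀ (by linarith) h2 _)
  have hresp := hx.resp j hj p hpj hp
  have hvp := (vv_mem (j₀ := j₀) (by omega) hpj).1
  have hx1 : |x p| ≤ C * L / N * (V ^ 2 * (H * (1 / (144 * C * (Q:ℝ) ^ 2) * N / L ^ 3)) + (V - U) * F) / U ^ 2 := by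
    rw [hresp, abs_div, abs_of_nonneg (sq_nonneg (vv Q j₀ p))]
    apply div_le_div₀ ((abs_nonneg _).trans hcell) hcell (by positivity)
    exact pow_le_pow_left₀ (by linarith) hvp 2
  -- the two parts
  have hT1 : C * L / N * (V ^ 2 * (H * (1 / (144 * C * (Q:ℝ) ^ 2) * N / L ^ 3))) / U ^ 2 ≤
      1 / 4 * HH ρ p / P ^ 2 := by
    have e1 : C * L / N * (V ^ 2 * (H * (1 / (144 * C * (Q:ℝ) ^ 2) * N / L ^ 3))) / U ^ 2 =
        (V ^ 2 / U ^ 2) * (H / (144 * (Q:ℝ) ^ 2 * L ^ 2)) := by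
      field_simp
    rw [e1]
    have h1 : V ^ 2 / U ^ 2 ≤ 2 := by
      rw [div_le_iff₀ (by positivity)]
      exact hV2
    have h2 : H / (144 * (Q:ℝ) ^ 2 * L ^ 2) ≤ 2 * HH ρ p / (16 * P ^ 2) := by
      apply div_le_div₀ (by positivity) hHH (by positivity)
      have h5 : P ^ 2 ≤ (3 * Q * L) ^ 2 := pow_le_pow_left₀ hlogp0.le hlogp 2
      calc 16 * P ^ 2 ≤ 16 * (3 * Q * L) ^ 2 := mul_le_mul_of_nonneg_left h5 (by norm_num)
        _ = 144 * (Q:ℝ) ^ 2 * L ^ 2 := by ring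
    calc (V ^ 2 / U ^ 2) * (H / (144 * (Q:ℝ) ^ 2 * L ^ 2)) ≤ 2 * (2 * HH ρ p / (16 * P ^ 2)) :=
          mul_le_mul h1 h2 (by positivity) (by norm_num)
      _ = 1 / 4 * HH ρ p / P ^ 2 := by ring
  set a : ℝ := (j:ℝ) ^ ((Q:ℝ) / 4) with ha
  have ha0 : 0 < a := by positivity
  have ha4 : a ^ 4 = (j:ℝ) ^ Q := by
    rw [ha, ← Real.rpow_natCast, ← Real.rpow_mul hjp.le, ← Real.rpow_natCast]
    congr 1
    push_cast
    ring
  have ha8 : a ^ 8 = (j:ℝ) ^ (2 * Q) := by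
    have : a ^ 8 = (a ^ 4) ^ 2 := by ring
    rw [this, ha4, ← pow_mul, mul_comm]
  have ha5 : (j:ℝ) ^ 5 ≤ a := by
    rw [ha, ← Real.rpow_natCast]
    apply Real.rpow_le_rpow_of_exponent_le (by linarith)
    have : (20:ℝ) ≤ Q := by exact_mod_cast hQ
    push_cast
    linarith
  have hHH2 := HH_ge2 (ρ := ρ) (p := p) (a := a) (by omega) ha0
    (by rw [ha8]; exact (by exact_mod_cast hpc.2 : (p:ℝ) ≤ ((j:ℝ) + 1) ^ (2 * Q)).trans hsuccR) hρ8
  have hFb : (j₀:ℝ) ^ Q * V ^ (3 * Q) ≤ 4 * a ^ 6 := by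
    have h1 : (j₀:ℝ) ^ Q * V ^ (2 * Q) = ((j:ℝ) + 1) ^ Q := by
      rw [pow_mul, hV2', div_pow]
      field_simp
    have h2 : ((j:ℝ) + 1) ^ Q ≤ 2 * a ^ 4 := by
      rw [ha4]; exact succ_pow_le (by omega)
    have h3 : V ^ Q ≤ 2 * a ^ 2 := by
      have h4 : (V ^ Q) ^ 2 ≤ (2 * a ^ 2) ^ 2 := by
        have h5 : (V ^ Q) ^ 2 = (((j:ℝ) + 1) / j₀) ^ Q := by
          rw [← pow_mul, mul_comm Q 2, pow_mul, hV2']
        have h6 : (((j:ℝ) + 1) / j₀) ^ Q ≤ ((j:ℝ) + 1) ^ Q := by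
          apply pow_le_pow_left₀ (by positivity)
          apply div_le_self (by positivity)
          have : (1:ℝ) ≤ (3:ℝ) := by norm_num
          have : (3:ℝ) ≤ j₀ := by exact_mod_cast hj3
          linarith
        have h7 : (2 * a ^ 2) ^ 2 = 4 * a ^ 4 := by ring
        rw [h5, h7]
        have h8 : 0 < a ^ 4 := by positivity
        linarith
      exact le_of_pow_le_pow_left₀ (by norm_num) (by positivity) h4
    have e : (j₀:ℝ) ^ Q * V ^ (3 * Q) = ((j₀:ℝ) ^ Q * V ^ (2 * Q)) * V ^ Q := by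
      rw [mul_assoc, ← pow_add]; congr 2; ring
    rw [e, h1]
    calc ((j:ℝ) + 1) ^ Q * V ^ Q ≤ (2 * a ^ 4) * (2 * a ^ 2) := mul_le_mul h2 h3 (by positivity) (by positivity)
      _ = 4 * a ^ 6 := by ring
  have hT2 : C * L / N * ((V - U) * F) / U ^ 2 ≤ 1 / 4 * HH ρ p / P ^ 2 := by
    have hVU0 : 0 ≤ V - U := sub_nonneg.2 hUV
    have e1 : C * L / N * ((V - U) * F) / U ^ 2 =
        (C * L / N) * ((V - U) * (((j₀:ℝ) ^ Q * V ^ (3 * Q)) * (V ^ 2 / U ^ 2))) := by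
      rw [hF, pow_add]; ring
    rw [e1]
    have h1 : V ^ 2 / U ^ 2 ≤ 2 := by
      rw [div_le_iff₀ (by positivity)]
      exact hV2
    have h2 : (V - U) * (((j₀:ℝ) ^ Q * V ^ (3 * Q)) * (V ^ 2 / U ^ 2)) ≤ 1 * ((4 * a ^ 6) * 2) := by
      apply mul_le_mul hVU _ (by positivity) (by norm_num)
      exact mul_le_mul hFb h1 (by positivity) (by positivity)
    have h3 : C * L / N ≤ C * L * (j / a ^ 8) := by
      rw [div_eq_mul_one_div]
      apply mul_le_mul_of_nonneg_left _ (by positivity)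
      rw [div_le_div_iff₀ hNpos (by positivity), ha8]
      linarith
    calc (C * L / N) * ((V - U) * (((j₀:ℝ) ^ Q * V ^ (3 * Q)) * (V ^ 2 / U ^ 2)))
        ≤ (C * L * (j / a ^ 8)) * (1 * ((4 * a ^ 6) * 2)) :=
          mul_le_mul h3 h2 (by positivity) (by positivity)
      _ = 8 * C * L * j / a ^ 2 := by
          field_simp
          ring
      _ ≤ 1 / 4 * (1 / (2 * a)) / (3 * Q * L) ^ 2 := by
          have e2 : 1 / 4 * (1 / (2 * a)) / (3 * Q * L) ^ 2 = 1 / (72 * Q ^ 2 * L ^ 2 * a) := by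
            field_simp
            norm_num
          rw [e2, div_le_div_iff₀ (by positivity) (by positivity)]
          have h5 : 576 * C * (Q:ℝ) ^ 2 * (L ^ 3 * j) ≤ (j:ℝ) ^ 5 := by
            have h6 : L ^ 3 ≤ (j:ℝ) ^ 3 := pow_le_pow_left₀ (by linarith) hLj 3
            calc 576 * C * (Q:ℝ) ^ 2 * (L ^ 3 * j) ≤ (j:ℝ) * ((j:ℝ) ^ 3 * j) := by
                  apply mul_le_mul (hjC.trans hj0le) _ (by positivity) (by positivity)
                  exact mul_le_mul_of_nonneg_right h6 hjp.le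
              _ = (j:ℝ) ^ 5 := by ring
          have h7 := h5.trans ha5
          calc 8 * C * L * j * (72 * Q ^ 2 * L ^ 2 * a) = (576 * C * (Q:ℝ) ^ 2 * (L ^ 3 * j)) * a := by ring
            _ ≤ a * a := mul_le_mul_of_nonneg_right h7 ha0.le
            _ = 1 * a ^ 2 := by ring
      _ ≤ 1 / 4 * HH ρ p / P ^ 2 := by
          apply div_le_div₀ (by positivity) _ (by positivity)
          · exact pow_le_pow_left₀ hlogp0.le hlogp 2
          · exact mul_le_mul_of_nonneg_left hHH2 (by norm_num)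
  have e0 : C * L / N * (V ^ 2 * (H * (1 / (144 * C * (Q:ℝ) ^ 2) * N / L ^ 3)) + (V - U) * F) / U ^ 2 =
      C * L / N * (V ^ 2 * (H * (1 / (144 * C * (Q:ℝ) ^ 2) * N / L ^ 3))) / U ^ 2 +
      C * L / N * ((V - U) * F) / U ^ 2 := by
    rw [mul_add, add_div]
  have e3 : 1 / 2 * HH ρ p / P ^ 2 = 1 / 4 * HH ρ p / P ^ 2 + 1 / 4 * HH ρ p / P ^ 2 := by ring
  rw [e3]
  rw [e0] at hx1
  linarith

end Pool.Agent.H927R2.ETDecay
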