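import Pool.Agent.H624R3.CP.Stmts

/-!
# COVPROD (helper624): TASK BSET
-/

set_option autoImplicit false

open MeasureTheory Metric

namespace Pool.Agent.H927R2.CPBset

open Pool.Agent.H624R3.CP

lemma closedK (d j : ℕ) (ρ : ℝ) :
    IsClosed {x : E d × (Fin j → E d) | ‖x.1‖ ≤ ρ ∧ ∀ l, ‖x.2 l - x.1‖ ≤ ρ} := by
  have h : {x : E d × (Fin j → E d) | ‖x.1‖ ≤ ρ ∧ ∀ l, ‖x.2 l - x.1‖ ≤ ρ} =
      {x | ‖x.1‖ ≤ ρ} ∩ ⋂ l, {x | ‖x.2 l - x.1‖ ≤ ρ} := by
    ext x
    simp
  rw [h]
  refine (isClosed_le (by fun_prop) continuous_const).inter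
    (isClosed_iInter fun l => isClosed_le (by fun_prop) continuous_const)

lemma compactB (d j : ℕ) (ρ : ℝ) : IsCompact (Bset d j ρ) := by
  have hK : IsCompact {x : E d × (Fin j → E d) | ‖x.1‖ ≤ ρ ∧ ∀ l, ‖x.2 l - x.1‖ ≤ ρ} := by
    have hbig : IsCompact ((closedBall (0 : E d) ρ) ×ˢ
        (Set.univ.pi fun _ : Fin j => closedBall (0 : E d) (2 * ρ))) :=
      (isCompact_closedBall _ _).prod (isCompact_univ_pi fun _ => isCompact_closedBall _ _)
    refine hbig.of_isClosed_subset (closedK d j ρ) ?_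
    rintro ⟨p, v⟩ ⟨h1, h2⟩
    refine ⟨by simpa using h1, fun l _ => ?_⟩
    rw [mem_closedBall_zero_iff]
    have h3 := norm_add_le (v l - p) p
    rw [sub_add_cancel] at h3
    have h4 : ‖v l - p‖ ≤ ρ := h2 l
    have h5 : ‖p‖ ≤ ρ := h1
    change ‖v l‖ ≤ 2 * ρ
    linarith
  have e : Bset d j ρ = Prod.snd '' {x : E d × (Fin j → E d) | ‖x.1‖ ≤ ρ ∧ ∀ l, ‖x.2 l - x.1‖ ≤ ρ} := by
    ext v
    constructor
    · rintro ⟨p, h1, h2⟩
      exact ⟨(p, v), ⟨h1, h2⟩, rfl⟩
    · rintro ⟨⟨p, w⟩, ⟨h1, h2⟩, rfl⟩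
      exact ⟨p, h1, h2⟩
  rw [e]
  exact hK.image continuous_snd

theorem taskBSET : TaskBSET := by
  intro d j ρ η hd hρ hη
  have hcomp := compactB d j ρ
  refine ⟨hcomp, ?_⟩
  set K' : Set (E d × (Fin j → E d)) := {x | ‖x.1‖ ≤ ρ + η ∧ ∀ l, ‖x.2 l - x.1‖ ≤ ρ + η} with hK'
  have hmeas : MeasurableSet K' := (closedK d j (ρ + η)).measurableSet
  set V := volume (closedBall (0 : E d) (ρ + η)) with hV
  have hcen : ∀ p : E d, volume (closedBall p (ρ + η)) = V := fun p => by
    rw [hV, Measure.addHaar_closedBall_center]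
  have ha : ((volume : Measure (E d)).prod (volume : Measure (Fin j → E d))) K' = V ^ j * V := by
    rw [Measure.prod_apply hmeas]
    have h1 : ∀ p : E d, volume (Prod.mk p ⁻¹' K') =
        (closedBall (0 : E d) (ρ + η)).indicator (fun _ => V ^ j) p := by
      intro p
      by_cases hp : p ∈ closedBall (0 : E d) (ρ + η)
      · rw [Set.indicator_of_mem hp]
        have e : Prod.mk p ⁻¹' K' = Set.univ.pi fun _ : Fin j => closedBall p (ρ + η) := by
          ext v
          rw [mem_closedBall_zero_iff] at hp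
          simp [hK', mem_closedBall, dist_eq_norm, hp]
        rw [e, volume_pi_pi]
        simp only [hcen]
        simp
      · rw [Set.indicator_of_notMem hp]
        have e : Prod.mk p ⁻¹' K' = ∅ := by
          ext v
          rw [mem_closedBall_zero_iff] at hp
          simp [hK', hp]
        rw [e, measure_empty]
    simp_rw [h1]
    rw [lintegral_indicator measurableSet_closedBall, setLIntegral_const]
  have hb : volume (closedBall (0 : E d) η) * volume (Bset d j ρ) ≤
      ((volume : Measure (E d)).prod (volume : Measure (Fin j → E d))) K' := by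
    rw [Measure.prod_apply_symm hmeas]
    calc volume (closedBall (0 : E d) η) * volume (Bset d j ρ) =
        ∫⁻ _ in Bset d j ρ, volume (closedBall (0 : E d) η) := by rw [setLIntegral_const]
      _ ≤ ∫⁻ v in Bset d j ρ, volume ((fun p => (p, v)) ⁻¹' K') := by
          refine setLIntegral_mono' hcomp.measurableSet fun v hv => ?_
          obtain ⟨p, h1, h2⟩ := hv
          have h3 : closedBall p η ⊆ (fun p => (p, v)) ⁻¹' K' := by
            intro p' hp'
            rw [mem_closedBall, dist_eq_norm] at hp'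
            refine ⟨?_, fun l => ?_⟩
            · have h4 := norm_add_le (p' - p) p
              rw [sub_add_cancel] at h4
              change ‖p'‖ ≤ ρ + η
              linarith
            · have h4 := norm_sub_le (v l - p) (p' - p)
              rw [sub_sub_sub_cancel_right] at h4
              have h5 := h2 l
              change ‖v l - p'‖ ≤ ρ + η
              linarith
          calc volume (closedBall (0 : E d) η) = volume (closedBall p η) := by
                rw [Measure.addHaar_closedBall_center _ p]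
            _ ≤ _ := measure_mono h3
      _ ≤ ∫⁻ v, volume ((fun p => (p, v)) ⁻¹' K') := setLIntegral_le_lintegral _ _
  rw [ha] at hb
  have hvol : ∀ r : ℝ, 0 ≤ r → (volume (closedBall (0 : E d) r)).toReal = r ^ d * vb d := by
    intro r hr
    rw [Measure.addHaar_closedBall' _ _ hr, ENNReal.toReal_mul, finrank_euclideanSpace_fin,
      ENNReal.toReal_ofReal (by positivity)]
    rfl
  have hb0 : 0 < vb d := by
    unfold vb
    refine ENNReal.toReal_pos (measure_closedBall_pos _ _ one_pos).ne' ?_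
    exact measure_closedBall_lt_top.ne
  have hVt : V ≠ ⊤ := measure_closedBall_lt_top.ne
  have hc := ENNReal.toReal_mono (ENNReal.mul_ne_top (ENNReal.pow_ne_top hVt) hVt) hb
  rw [ENNReal.toReal_mul, ENNReal.toReal_mul, ENNReal.toReal_pow, hvol η hη.le, hV,
    hvol (ρ + η) (by linarith)] at hc
  have hη0 : 0 < η ^ d * vb d := by positivity
  have h6 : (volume (Bset d j ρ)).toReal ≤
      (((ρ + η) ^ d * vb d) ^ j * ((ρ + η) ^ d * vb d)) / (η ^ d * vb d) := by
    rw [le_div_iff₀ hη0]
    linarith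
  refine h6.trans (le_of_eq ?_)
  have h7 : η ^ d ≠ 0 := by positivity
  rw [div_pow, mul_comm (vb d) ((ρ + η) ^ d)]
  field_simp

end Pool.Agent.H927R2.CPBset
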