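import Mathlib
import Pool.Agent.H574R3.CS.Tasks

set_option autoImplicit false

/-!
Task A of H574R3.CS: a cubic polynomial over a finite field of odd order at least five
takes a square value.
-/

namespace Pool.Agent.H927R2.CSA

open Polynomial Pool.Agent.H574R3.CS

theorem taskA : TaskA := by
  intro K _ _ hchar hcard g hg
  by_contra hcon
  push Not at hcon
  set q := Fintype.card K with hq
  set N := q / 2 with hN
  have hodd : q % 2 = 1 := FiniteField.odd_card_of_char_ne_two hchar
  have hqN : q = 2 * N + 1 := by omega
  have hN2 : 2 ≤ N := by omega
  have hg0 : g ≠ 0 := by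
    rintro rfl
    simp at hg
  -- the values
  have hval : ∀ s : K, (g.eval s) ^ N = -1 := by
    intro s
    have h0 : g.eval s ≠ 0 := by
      intro h
      apply hcon s
      rw [h]
      exact ⟨0, by simp⟩
    rcases FiniteField.pow_dichotomy hchar h0 with h | h
    · exact absurd ((FiniteField.isSquare_iff hchar h0).mpr h) (hcon s)
    · exact h
  set A : K[X] := g ^ N + 1 with hA
  set P : K[X] := X ^ q - X with hP
  have hq1 : 1 < q := by omega
  have hPm : P.Monic := monic_X_pow_sub (by
    rw [degree_X]
    exact_mod_cast hq1)
  have hPdeg : P.natDegree = q := FiniteField.X_pow_card_sub_X_natDegree_eq K hq1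
  have hPeval : ∀ s : K, P.eval s = 0 := by
    intro s
    simp [hP, hq, FiniteField.pow_card]
  have hAeval : ∀ s : K, A.eval s = 0 := by
    intro s
    simp [hA, hval s]
  have hdvd : P ∣ A := by
    rw [← modByMonic_eq_zero_iff_dvd hPm]
    apply eq_zero_of_natDegree_lt_card_of_eval_eq_zero (f := fun s : K => s) _ Function.injective_id
    · intro s
      have h := modByMonic_add_div A P
      have h2 := congrArg (eval s) h
      rw [eval_add, eval_mul, hPeval s, zero_mul, add_zero, hAeval s] at h2
      exact h2
    · have hlt := natDegree_modByMonic_lt A hPm (by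
        intro h
        rw [h] at hPdeg
        simp at hPdeg
        omega)
      rw [hPdeg] at hlt
      exact hlt
  obtain ⟨G, hG⟩ := hdvd
  have hgN : (g ^ N).natDegree = 3 * N := by
    rw [natDegree_pow, hg]; ring
  have hAdeg : A.natDegree = 3 * N := by
    rw [hA, ← hgN]
    exact natDegree_add_eq_left_of_natDegree_lt (by rw [hgN, natDegree_one]; omega)
  have hA0 : A ≠ 0 := by
    intro h
    rw [h] at hAdeg
    simp at hAdeg
    omega
  have hG0 : G ≠ 0 := by
    rintro rfl
    apply hA0
    rw [hG, mul_zero]
  have hGdeg : G.natDegree = N - 1 := by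
    have h1 : A.natDegree = P.natDegree + G.natDegree := by
      rw [hG]
      exact natDegree_mul hPm.ne_zero hG0
    rw [hAdeg, hPdeg] at h1
    omega
  -- derivative
  have hcast : (q : K) = 0 := by rw [hq]; exact Nat.cast_card_eq_zero K
  have hP' : derivative P = -1 := by
    rw [hP, derivative_sub, derivative_X_pow, derivative_X]
    have : (C (q : K) : K[X]) = 0 := by rw [hcast, C_0]
    rw [this]
    ring
  have hA' : derivative A = C (N : K) * g ^ (N - 1) * derivative g := by
    rw [hA, derivative_add, derivative_one, add_zero, derivative_pow]
  have hA'' : derivative A = - G + P * derivative G := by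
    rw [hG, derivative_mul, hP']
    ring
  have hkey : g * G - C (N : K) * derivative g = P * (g * derivative G - C (N : K) * derivative g * G) := by
    have h1 : g * (C (N : K) * g ^ (N - 1) * derivative g) = g * (- G + P * derivative G) := by
      rw [← hA', hA'']
    have h2 : g * g ^ (N - 1) = g ^ N := by
      rw [← pow_succ']
      congr 1
      omega
    have h3 : g ^ N = P * G - 1 := by
      rw [← hG, hA]; ring
    have h4 : g * (C (N : K) * g ^ (N - 1) * derivative g) = C (N : K) * derivative g * (P * G - 1) := by
      rw [← h3, ← h2]; ring
    rw [h4] at h1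
    linear_combination h1
  have hzero : g * G - C (N : K) * derivative g = 0 := by
    apply eq_zero_of_natDegree_lt_card_of_eval_eq_zero (f := fun s : K => s) _ Function.injective_id
    · intro s
      rw [hkey, eval_mul, hPeval s, zero_mul]
    · have h1 : (g * G).natDegree ≤ 3 + (N - 1) := by
        refine natDegree_mul_le.trans ?_
        rw [hg, hGdeg]
      have h2 : (C (N : K) * derivative g).natDegree ≤ 2 := by
        refine (natDegree_C_mul_le _ _).trans ?_
        have := natDegree_derivative_le g
        omega
      have h3 := natDegree_sub_le (g * G) (C (N : K) * derivative g)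
      have h4 : max (g * G).natDegree (C (N : K) * derivative g).natDegree ≤ 3 + (N - 1) :=
        max_le h1 (by omega)
      change _ < q
      omega
  have hgG : (g * G).natDegree = 3 + (N - 1) := by
    rw [natDegree_mul hg0 hG0, hg, hGdeg]
  have h2 : (C (N : K) * derivative g).natDegree ≤ 2 := by
    refine (natDegree_C_mul_le _ _).trans ?_
    have := natDegree_derivative_le g
    omega
  have h5 : g * G = C (N : K) * derivative g := sub_eq_zero.mp hzero
  rw [h5] at hgG
  omega

end Pool.Agent.H927R2.CSA
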