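import Pool.Agent.H839R3.Nas.Stmts2

/-!
# H839NAS: the natural numbers of the extension are standard
-/

set_option autoImplicit false

namespace Pool.Agent.H927R2.NasStd

open Pool.Agent.H839R3.Nas
open Nm GenD FirstOrder FirstOrder.Language
open Pool.Agent.Helper672.Plain (LSet Mem Sym IsPair IsOrdPair)
open Pool.Agent.H310Cards

universe u

theorem ordPair_snd {M : Type u} [LSet.Structure M] {q x y x' y' : M} (h : IsOrdPair q x y)
    (h' : IsOrdPair q x' y') : y = y' := by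
  obtain ⟨s, d, hs, hd, hq⟩ := h
  obtain ⟨s', d', hs', hd', hq'⟩ := h'
  have h1 : s' = s ∨ s' = d := (hq s').1 ((hq' s').2 (Or.inl rfl))
  have hx : x = x' := by
    rcases h1 with h1 | h1
    · have h2 : Mem x s' := by rw [h1]; exact (hs x).2 (Or.inl rfl)
      rcases (hs' x).1 h2 with h3 | h3 <;> exact h3
    · have h2 : Mem x s' := by rw [h1]; exact (hd x).2 (Or.inl rfl)
      rcases (hs' x).1 h2 with h3 | h3 <;> exact h3
  have h2 : d = s' ∨ d = d' := (hq' d).1 ((hq d).2 (Or.inr rfl))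
  have h3 : d' = s ∨ d' = d := (hq d').1 ((hq' d').2 (Or.inr rfl))
  have hy : Mem y d := (hd y).2 (Or.inr rfl)
  have hy' : Mem y' d' := (hd' y').2 (Or.inr rfl)
  have key : y = x' → y = y' := by
    intro h4
    rcases h3 with h3 | h3
    · rw [h3] at hy'
      have h5 : y' = x := by rcases (hs y').1 hy' with h | h <;> exact h
      rw [h4, h5, hx]
    · rw [h3] at hy'
      rcases (hd y').1 hy' with h5 | h5
      · rw [h4, h5, hx]
      · exact h5.symm
  rcases h2 with h2 | h2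
  · rw [h2] at hy
    have h4 : y = x' := by rcases (hs' y).1 hy with h | h <;> exact h
    exact key h4
  · rw [h2] at hy
    rcases (hd' y).1 hy with h4 | h4
    · exact key h4
    · exact h4

section

variable {P V : Type} [Preorder P] [OrderTop P] [DecidableEq V] {S : Sys P V}
variable {O J : Type} {op : O → List S.H → S.H} {pr : J → List S.H → P → Prop}
variable (g : GenD S (zop op) pr)

theorem om_ind : IsInductive (g.vl _ g.T_om) := by
  refine ⟨⟨g.vl _ (g.T_nn 0), (g.mem_om _).2 ⟨0, rfl⟩, fun z hz => ?_⟩, fun n hn => ?_⟩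
  · obtain ⟨z, hzT, rfl⟩ := g.exists_vl z
    obtain ⟨i, _⟩ := g.mem_vl'.1 hz
    exact Empty.elim i
  · obtain ⟨z, hzT, rfl⟩ := g.exists_vl n
    obtain ⟨n, hn⟩ := (g.mem_om _).1 hn
    refine ⟨g.vl _ (g.T_nn (n + 1)), (g.mem_om _).2 ⟨n + 1, rfl⟩, fun z => ?_⟩
    obtain ⟨z, hzT, rfl⟩ := g.exists_vl z
    rw [hn]
    exact g.mem_suc (g.T_nn n) (g.T_nn (n + 1)) hzT

theorem fin_nn (m : ℕ) : {y : g.N | Mem y (g.vl _ (g.T_nn m))}.Finite := by
  induction m with
  | zero =>
    have h : {y : g.N | Mem y (g.vl _ (g.T_nn 0))} = ∅ := by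
      ext z
      refine ⟨fun hz => ?_, fun hz => absurd hz (Set.notMem_empty z)⟩
      obtain ⟨z, hzT, rfl⟩ := g.exists_vl z
      obtain ⟨i, _⟩ := g.mem_vl'.1 hz
      exact Empty.elim i
    rw [h]
    exact Set.finite_empty
  | succ m ih =>
    refine (ih.union (Set.finite_singleton (g.vl _ (g.T_nn m)))).subset fun z hz => ?_
    obtain ⟨z, hzT, rfl⟩ := g.exists_vl z
    exact (g.mem_suc (g.T_nn m) (g.T_nn (m + 1)) hzT).1 hz

theorem std (x : g.N) (hx : IsFinite x) : {y | Mem y x}.Finite := by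
  obtain ⟨n, f, hn, hf⟩ := hx
  have h1 : Mem n (g.vl _ g.T_om) := hn _ (om_ind g)
  obtain ⟨z, hzT, rfl⟩ := g.exists_vl n
  obtain ⟨m, hm⟩ := (g.mem_om hzT).1 h1
  rw [hm] at hf
  haveI : Nonempty g.N := ⟨x⟩
  have h2 : ∀ y, Mem y x → ∃ z, App f y z := fun y hy => (hf.1.1.2 y hy).exists
  choose! φ hφ using h2
  refine Set.Finite.of_injOn (f := φ) (t := {y : g.N | Mem y (g.vl _ (g.T_nn m))}) ?_ ?_ (fin_nn g m)
  · intro y hy
    obtain ⟨q, hq, hqf⟩ := hφ y hy
    obtain ⟨a, b, _, hb, hab⟩ := hf.1.1.1 q hqf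
    rw [ordPair_snd hq hab]
    exact hb
  · intro y hy y' hy' h3
    have h4 := hφ y hy
    rw [h3] at h4
    exact hf.1.2 y y' _ h4 (hφ y' hy')

end

theorem taskStd : TaskStd := by
  intro P _ _ S O J op pr g x hx
  exact std g x hx

end Pool.Agent.H927R2.NasStd
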